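import Mathlib
import Pool.Agent.N708.MX.Stm

/-!
# Project MX, COM: elements of the centraliser almost commute in the normalised Hilbert-Schmidt norm
-/

set_option autoImplicit false

namespace Pool.Agent.N346.MX

open Filter Topology
open Pool.Agent.N708.MX

noncomputable section

/-! ### The operator norm of matrices -/

abbrev Mt (d : ℕ) : Type := Matrix (Fin d) (Fin d) ℂ

abbrev Es (d : ℕ) : Type := EuclideanSpace ℂ (Fin d × Fin d)

variable {d : ℕ}

theorem opn_nonneg (a : Mt d) : 0 ≤ opn a := norm_nonneg _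

theorem opn_add (a b : Mt d) : opn (a + b) ≤ opn a + opn b := by
  unfold opn
  rw [map_add]
  exact norm_add_le _ _

theorem opn_neg (a : Mt d) : opn (-a) = opn a := by
  unfold opn
  rw [map_neg, norm_neg]

theorem opn_sub (a b : Mt d) : opn (a - b) ≤ opn a + opn b := by
  rw [sub_eq_add_neg, ← opn_neg b]
  exact opn_add _ _

theorem opn_mul (a b : Mt d) : opn (a * b) ≤ opn a * opn b := by
  unfold opn
  rw [map_mul]
  exact norm_mul_le _ _

theorem opn_star (a : Mt d) : opn (star a) = opn a := by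
  unfold opn
  rw [map_star]
  exact (ContinuousLinearMap.adjoint (𝕜 := ℂ)).norm_map (Matrix.toEuclideanCLM (𝕜 := ℂ) a)

theorem opn_one : opn (1 : Mt d) ≤ 1 := by
  unfold opn
  rw [map_one]
  exact ContinuousLinearMap.norm_id_le

theorem opn_unit (u : Matrix.unitaryGroup (Fin d) ℂ) : opn u.val ≤ 1 := by
  have h1 : star (Matrix.toEuclideanCLM (𝕜 := ℂ) u.val) * Matrix.toEuclideanCLM (𝕜 := ℂ) u.val =
      1 := by
    rw [← map_star, ← map_mul, ← map_one (Matrix.toEuclideanCLM (𝕜 := ℂ))]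
    congr 1
    exact Matrix.mem_unitaryGroup_iff'.1 u.2
  have h2 := CStarRing.norm_star_mul_self (x := Matrix.toEuclideanCLM (𝕜 := ℂ) u.val)
  rw [h1] at h2
  have h3 : ‖(1 : EuclideanSpace ℂ (Fin d) →L[ℂ] EuclideanSpace ℂ (Fin d))‖ ≤ 1 :=
    ContinuousLinearMap.norm_id_le
  have h4 := opn_nonneg u.val
  unfold opn at h4 ⊢
  nlinarith

theorem opn_mulVec (a : Mt d) (v : Fin d → ℂ) :
    ‖(WithLp.toLp 2 (a.mulVec v) : EuclideanSpace ℂ (Fin d))‖ ≤
      opn a * ‖(WithLp.toLp 2 v : EuclideanSpace ℂ (Fin d))‖ := by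
  have h := (Matrix.toEuclideanCLM (𝕜 := ℂ) a).le_opNorm (WithLp.toLp 2 v)
  rw [Matrix.toEuclideanCLM_toLp] at h
  exact h

/-! ### Matrices as vectors -/

/-- a matrix as a vector -/
def vec (m : Mt d) : Es d := WithLp.toLp 2 (fun p => m p.1 p.2)

/-- a vector as a matrix -/
def mat (x : Es d) : Mt d := Matrix.of fun i j => x (i, j)

theorem mat_vec (m : Mt d) : mat (vec m) = m := rfl

theorem vec_mat (x : Es d) : vec (mat x) = x := rfl

theorem vec_add (a b : Mt d) : vec (a + b) = vec a + vec b := rfl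

theorem vec_sub (a b : Mt d) : vec (a - b) = vec a - vec b := rfl

theorem vec_smul (c : ℂ) (a : Mt d) : vec (c • a) = c • vec a := rfl

theorem mat_add (x y : Es d) : mat (x + y) = mat x + mat y := rfl

theorem mat_smul (c : ℂ) (x : Es d) : mat (c • x) = c • mat x := rfl

theorem vec_norm (m : Mt d) : ‖vec m‖ ^ 2 = ∑ i, ∑ j, ‖m i j‖ ^ 2 := by
  rw [EuclideanSpace.norm_sq_eq, Fintype.sum_prod_type]
  rfl

theorem hs2_eq (m : Mt d) : hs2 m = ‖vec m‖ ^ 2 / d := by
  unfold hs2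
  congr 1
  rw [vec_norm, Finset.sum_comm, Matrix.trace, Complex.re_sum]
  refine Finset.sum_congr rfl fun j _ => ?_
  rw [Matrix.diag_apply, Matrix.mul_apply, Complex.re_sum]
  refine Finset.sum_congr rfl fun i _ => ?_
  rw [Matrix.conjTranspose_apply, ← Complex.normSq_eq_norm_sq]
  show (star (m i j) * m i j).re = _
  rw [Complex.star_def, ← Complex.normSq_eq_conj_mul_self, Complex.ofReal_re]

theorem vec_star (m : Mt d) : ‖vec (star m)‖ = ‖vec m‖ := by
  have h : ‖vec (star m)‖ ^ 2 = ‖vec m‖ ^ 2 := by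
    rw [vec_norm, vec_norm, Finset.sum_comm]
    refine Finset.sum_congr rfl fun i _ => Finset.sum_congr rfl fun j _ => ?_
    rw [Matrix.star_apply, norm_star]
  exact (pow_left_inj₀ (norm_nonneg _) (norm_nonneg _) two_ne_zero).1 h

theorem vec_mul_left (a x : Mt d) : ‖vec (a * x)‖ ≤ opn a * ‖vec x‖ := by
  have h : ‖vec (a * x)‖ ^ 2 ≤ (opn a * ‖vec x‖) ^ 2 := by
    rw [mul_pow, vec_norm, vec_norm, Finset.sum_comm, Finset.sum_comm (f := fun i j => ‖x i j‖ ^ 2),
      Finset.mul_sum]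
    refine Finset.sum_le_sum fun j _ => ?_
    have h1 := opn_mulVec a (fun k => x k j)
    have h2 := pow_le_pow_left₀ (norm_nonneg _) h1 2
    rw [mul_pow, EuclideanSpace.norm_sq_eq, EuclideanSpace.norm_sq_eq] at h2
    exact h2
  exact (pow_le_pow_iff_left₀ (norm_nonneg _)
    (mul_nonneg (opn_nonneg _) (norm_nonneg _)) two_ne_zero).1 h

theorem vec_mul_right (x b : Mt d) : ‖vec (x * b)‖ ≤ ‖vec x‖ * opn b := by
  rw [← vec_star, star_mul, ← vec_star x, ← opn_star b, mul_comm ‖_‖]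
  exact vec_mul_left _ _

theorem vec_one : ‖vec (1 : Mt d)‖ = √d := by
  rw [← Real.sqrt_sq (norm_nonneg (vec (1 : Mt d))), vec_norm]
  congr 1
  have : ∀ i : Fin d, ∑ j, ‖(1 : Mt d) i j‖ ^ 2 = 1 := by
    intro i
    rw [Finset.sum_eq_single i]
    · simp
    · intro j _ hj
      rw [Matrix.one_apply_ne hj.symm]
      simp
    · simp
  simp only [this]
  simp

theorem vec_le (m : Mt d) : ‖vec m‖ ≤ opn m * √d := by
  have h := vec_mul_left m 1
  rw [mul_one, vec_one] at h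
  exact h

theorem vec_unit_left (u : Matrix.unitaryGroup (Fin d) ℂ) (x : Mt d) :
    ‖vec (u.val * x)‖ = ‖vec x‖ := by
  have h1 : ‖vec (u.val * x)‖ ≤ ‖vec x‖ := by
    refine (vec_mul_left _ _).trans ?_
    have := opn_unit u
    have := norm_nonneg (vec x)
    nlinarith
  have h2 : ‖vec x‖ ≤ ‖vec (u.val * x)‖ := by
    have h3 : x = star u.val * (u.val * x) := by
      rw [← mul_assoc, Matrix.mem_unitaryGroup_iff'.1 u.2, one_mul]
    have h4 := vec_mul_left (star u.val) (u.val * x)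
    rw [← h3, opn_star] at h4
    have := opn_unit u
    have := norm_nonneg (vec (u.val * x))
    nlinarith
  exact le_antisymm h1 h2

theorem vec_unit_right (u : Matrix.unitaryGroup (Fin d) ℂ) (x : Mt d) :
    ‖vec (x * u.val)‖ = ‖vec x‖ := by
  have h := vec_unit_left (star u) (star x)
  rw [vec_star] at h
  rw [← h, ← vec_star (x * u.val), star_mul]
  rfl

theorem vec_unit_right' (u : Matrix.unitaryGroup (Fin d) ℂ) (x : Mt d) :
    ‖vec (x * star u.val)‖ = ‖vec x‖ :=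
  vec_unit_right (star u) x

/-! ### The adjoint action -/

/-- `x ↦ u x u*` -/
def adI (u : Matrix.unitaryGroup (Fin d) ℂ) : Es d ≃ₗᵢ[ℂ] Es d where
  toFun x := vec (u.val * mat x * star u.val)
  invFun x := vec (star u.val * mat x * u.val)
  map_add' x y := by rw [mat_add, mul_add, add_mul, vec_add]
  map_smul' c x := by
    rw [mat_smul, mul_smul_comm, smul_mul_assoc, vec_smul]
    rfl
  left_inv x := by
    show vec (star u.val * mat (vec (u.val * mat x * star u.val)) * u.val) = x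
    rw [mat_vec]
    have h1 := Matrix.mem_unitaryGroup_iff'.1 u.2
    have h2 : star u.val * (u.val * mat x * star u.val) * u.val = mat x := by
      calc star u.val * (u.val * mat x * star u.val) * u.val =
          (star u.val * u.val) * mat x * (star u.val * u.val) := by noncomm_ring
        _ = mat x := by rw [h1, one_mul, mul_one]
    rw [h2, vec_mat]
  right_inv x := by
    show vec (u.val * mat (vec (star u.val * mat x * u.val)) * star u.val) = x
    rw [mat_vec]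
    have h1 := Matrix.mem_unitaryGroup_iff.1 u.2
    have h2 : u.val * (star u.val * mat x * u.val) * star u.val = mat x := by
      calc u.val * (star u.val * mat x * u.val) * star u.val =
          (u.val * star u.val) * mat x * (u.val * star u.val) := by noncomm_ring
        _ = mat x := by rw [h1, one_mul, mul_one]
    rw [h2, vec_mat]
  norm_map' x := by
    show ‖vec (u.val * mat x * star u.val)‖ = ‖x‖
    rw [vec_unit_right', vec_unit_left, vec_mat]

/-- the adjoint action as a unitary operator -/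
def adU (u : Matrix.unitaryGroup (Fin d) ℂ) : unitary (Es d →L[ℂ] Es d) :=
  Unitary.linearIsometryEquiv.symm (adI u)

theorem adU_vec (u : Matrix.unitaryGroup (Fin d) ℂ) (m : Mt d) :
    (adU u : Es d →L[ℂ] Es d) (vec m) = vec (u.val * m * star u.val) := by
  unfold adU
  rw [Unitary.coe_symm_linearIsometryEquiv_apply]
  rfl

theorem adU_norm (u : Matrix.unitaryGroup (Fin d) ℂ) (x : Es d) :
    ‖(adU u : Es d →L[ℂ] Es d) x‖ = ‖x‖ := by
  unfold adU
  rw [Unitary.coe_symm_linearIsometryEquiv_apply]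
  exact (adI u).norm_map x

theorem adU_sub (u v w : Matrix.unitaryGroup (Fin d) ℂ) :
    ‖(adU u : Es d →L[ℂ] Es d) - (adU v : Es d →L[ℂ] Es d) * (adU w : Es d →L[ℂ] Es d)‖ ≤
      2 * opn (u.val - v.val * w.val) := by
  refine ContinuousLinearMap.opNorm_le_bound _ (by have := opn_nonneg (u.val - v.val * w.val); positivity) fun x => ?_
  obtain ⟨m, rfl⟩ : ∃ m, x = vec m := ⟨mat x, (vec_mat x).symm⟩
  have e : ((adU u : Es d →L[ℂ] Es d) - (adU v : Es d →L[ℂ] Es d) *
      (adU w : Es d →L[ℂ] Es d)) (vec m) =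
      vec ((u.val - v.val * w.val) * m * star u.val) +
        vec (v.val * w.val * m * star (u.val - v.val * w.val)) := by
    rw [sub_apply, mul_apply_eq_comp, adU_vec, adU_vec, adU_vec,
      ← vec_sub, ← vec_add, star_sub, star_mul]
    congr 1
    noncomm_ring
  rw [e]
  have h1 : ‖vec ((u.val - v.val * w.val) * m * star u.val)‖ ≤
      opn (u.val - v.val * w.val) * ‖vec m‖ := by
    rw [vec_unit_right']
    exact vec_mul_left _ _
  have h2 : ‖vec (v.val * w.val * m * star (u.val - v.val * w.val))‖ ≤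
      opn (u.val - v.val * w.val) * ‖vec m‖ := by
    refine (vec_mul_right _ _).trans ?_
    rw [opn_star, mul_assoc v.val, vec_unit_left, vec_unit_left, mul_comm]
  calc _ ≤ ‖vec ((u.val - v.val * w.val) * m * star u.val)‖ +
        ‖vec (v.val * w.val * m * star (u.val - v.val * w.val))‖ := norm_add_le _ _
    _ ≤ _ := by linarith

/-! ### Normalised vectors -/

/-- the normalised vector of a matrix -/
def nv (m : Mt d) : Es d := (((√(d : ℝ))⁻¹ : ℝ) : ℂ) • vec m

theorem nv_sub (a b : Mt d) : nv (a - b) = nv a - nv b := by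
  unfold nv
  rw [vec_sub, smul_sub]

theorem nv_norm (m : Mt d) : ‖nv m‖ = (√(d : ℝ))⁻¹ * ‖vec m‖ := by
  unfold nv
  rw [norm_smul, Complex.norm_real, Real.norm_of_nonneg (by positivity)]

theorem nv_le (m : Mt d) : ‖nv m‖ ≤ opn m := by
  rw [nv_norm]
  have h1 := vec_le m
  have h2 := opn_nonneg m
  rcases (Nat.cast_nonneg d : (0 : ℝ) ≤ d).eq_or_lt with h | h
  · rw [← h, Real.sqrt_zero, inv_zero, zero_mul]
    exact h2
  · have h3 : 0 < √(d : ℝ) := Real.sqrt_pos.2 h
    rw [inv_mul_le_iff₀ h3, mul_comm]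
    exact h1

theorem nv_hs2 (m : Mt d) : hs2 m = ‖nv m‖ ^ 2 := by
  rw [hs2_eq, nv_norm, mul_pow, inv_pow, Real.sq_sqrt (Nat.cast_nonneg d)]
  ring

theorem adU_nv (u : Matrix.unitaryGroup (Fin d) ℂ) (m : Mt d) :
    (adU u : Es d →L[ℂ] Es d) (nv m) = nv (u.val * m * star u.val) := by
  unfold nv
  rw [map_smul, adU_vec]

theorem ad_nv_sub (u : Matrix.unitaryGroup (Fin d) ℂ) (m : Mt d) :
    ‖(adU u : Es d →L[ℂ] Es d) (nv m) - nv m‖ = ‖nv (u.val * m - m * u.val)‖ := by
  have e : u.val * m * star u.val - m = (u.val * m - m * u.val) * star u.val := by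
    rw [sub_mul, mul_assoc m, Matrix.mem_unitaryGroup_iff.1 u.2, mul_one]
  rw [adU_nv, ← nv_sub, e, nv_norm, nv_norm, vec_unit_right']

theorem ad_nv_sub' (u : Matrix.unitaryGroup (Fin d) ℂ) (m m' : Mt d) :
    ‖(adU u : Es d →L[ℂ] Es d) (nv m) - nv m'‖ = ‖nv (u.val * m - m' * u.val)‖ := by
  have e : u.val * m * star u.val - m' = (u.val * m - m' * u.val) * star u.val := by
    rw [sub_mul, mul_assoc m', Matrix.mem_unitaryGroup_iff.1 u.2, mul_one]
  rw [adU_nv, ← nv_sub, e, nv_norm, nv_norm, vec_unit_right']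

/-! ### Limits -/

theorem tz {f : ℕ → ℝ} {l : Filter ℕ} (C : ℝ) (hC : 0 < C) (h0 : ∀ n, 0 ≤ f n)
    (h : ∀ ε : ℝ, 0 < ε → ∀ᶠ n in l, f n ≤ C * ε) : Tendsto f l (𝓝 0) := by
  rw [Metric.tendsto_nhds]
  intro ε hε
  filter_upwards [h (ε / (2 * C)) (by positivity)] with n hn
  rw [Real.dist_eq, sub_zero, abs_of_nonneg (h0 n)]
  have e : C * (ε / (2 * C)) = ε / 2 := by field_simp
  rw [e] at hn
  linarith

theorem zt {f : ℕ → ℝ} {l : Filter ℕ} (h : Tendsto f l (𝓝 0)) {ε : ℝ} (hε : 0 < ε) :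
    ∀ᶠ n in l, f n ≤ ε :=
  (h.eventually (gt_mem_nhds hε)).mono fun _ hn => hn.le

theorem prod_lim {G : Type} [Group G] {l : Filter ℕ} {d : ℕ → ℕ}
    {U : ∀ n, G → Matrix.unitaryGroup (Fin (d n)) ℂ} (hU : AH l d U) {g₁ g₂ g₃ g₄ : G}
    (hg : g₁ * g₂ = g₃ * g₄) :
    Tendsto (fun n => opn ((U n g₁).val * (U n g₂).val - (U n g₃).val * (U n g₄).val)) l
      (𝓝 0) := by
  have h1 := (hU g₁ g₂).add (hU g₃ g₄)
  rw [add_zero] at h1
  refine squeeze_zero (fun n => opn_nonneg _) (fun n => ?_) h1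
  have e : (U n g₁).val * (U n g₂).val - (U n g₃).val * (U n g₄).val =
      ((U n (g₃ * g₄)).val - (U n g₃).val * (U n g₄).val) -
        ((U n (g₁ * g₂)).val - (U n g₁).val * (U n g₂).val) := by
    rw [hg]
    abel
  rw [e, add_comm]
  exact opn_sub _ _

theorem split {H : Type} [NormedAddCommGroup H] [InnerProductSpace ℂ H] [FiniteDimensional ℂ H]
    (V : Submodule ℂ H) (x : H) : ∃ a ∈ V, ∃ b ∈ Vᗮ, x = a + b ∧ ‖a‖ ≤ ‖x‖ := by
  obtain ⟨a, ha, b, hb, hx⟩ := Submodule.exists_add_mem_mem_orthogonal (K := V) x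
  refine ⟨a, ha, b, hb, hx, ?_⟩
  have h1 : inner ℂ a b = 0 := hb a ha
  have h2 := norm_add_sq_eq_norm_sq_add_norm_sq_of_inner_eq_zero a b h1
  rw [hx]
  have h3 := norm_nonneg a
  have h4 := norm_nonneg (a + b)
  have h5 := norm_nonneg b
  nlinarith

theorem t_com (hR : S_RANK) : S_COM := by
  intro K G _ _ φ ι h k γ hPT hγ hrel l d U hU c hc a
  obtain ⟨θ, hθ, hall⟩ := hR K G φ ι h k γ hPT hγ hrel
  have hAR : AR l (fun n => Es (d n)) (fun n g => adU (U n g)) := by
    intro g g'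
    have h1 := (hU g g').const_mul 2
    rw [mul_zero] at h1
    exact squeeze_zero (fun n => norm_nonneg _) (fun n => adU_sub _ _ _) h1
  obtain ⟨V, p1, p2, p3, -⟩ := hall l (fun n => Es (d n)) (fun n g => adU (U n g)) hAR
  -- the element c'
  obtain ⟨c', hc'⟩ : ∃ c', c' = h * ι c * h⁻¹ := ⟨_, rfl⟩
  have hι : ∀ a, ι a = h * ι (φ a) * h⁻¹ := by
    intro a
    rw [← hrel]
    group
  have hcc : ∀ a, ι a * c' = c' * ι a := by
    intro a
    rw [hc', hι a]
    have h1 : ι (φ a) * ι c = ι c * ι (φ a) := by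
      rw [← map_mul, ← map_mul, hc a]
    calc h * ι (φ a) * h⁻¹ * (h * ι c * h⁻¹) = h * (ι (φ a) * ι c) * h⁻¹ := by group
      _ = h * (ι c * ι (φ a)) * h⁻¹ := by rw [h1]
      _ = h * ι c * h⁻¹ * (h * ι (φ a) * h⁻¹) := by group
  have hch : h * ι c = c' * h := by
    rw [hc']
    group
  -- the vectors
  obtain ⟨x, hx⟩ : ∃ x : ∀ n, Es (d n), x = fun n => nv (U n c').val := ⟨_, rfl⟩
  obtain ⟨z, hz⟩ : ∃ z : ∀ n, Es (d n), z = fun n => nv (U n (ι c)).val := ⟨_, rfl⟩
  have hx1 : ∀ n, ‖x n‖ ≤ 1 := by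
    intro n
    rw [hx]
    exact (nv_le _).trans (opn_unit _)
  have hxa : ∀ a, Tendsto (fun n => ‖(adU (U n (ι a)) : Es (d n) →L[ℂ] Es (d n)) (x n) - x n‖) l
      (𝓝 0) := by
    intro a
    refine squeeze_zero (fun n => norm_nonneg _) (fun n => ?_) (prod_lim hU (hcc a))
    rw [hx]
    show ‖(adU (U n (ι a)) : Es (d n) →L[ℂ] Es (d n)) (nv (U n c').val) - nv (U n c').val‖ ≤ _
    rw [ad_nv_sub]
    exact nv_le _
  have hzh : Tendsto (fun n => ‖(adU (U n h) : Es (d n) →L[ℂ] Es (d n)) (z n) - x n‖) l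
      (𝓝 0) := by
    refine squeeze_zero (fun n => norm_nonneg _) (fun n => ?_) (prod_lim hU hch)
    rw [hx, hz]
    show ‖(adU (U n h) : Es (d n) →L[ℂ] Es (d n)) (nv (U n (ι c)).val) - nv (U n c').val‖ ≤ _
    rw [ad_nv_sub']
    exact nv_le _
  have hsp := fun n => split (V n) (x n)
  choose p hp q hq hpq hpn using hsp
  have hp1 : ∀ n, ‖p n‖ ≤ 1 := fun n => (hpn n).trans (hx1 n)
  -- the orthogonal part tends to zero
  have hq0 : Tendsto (fun n => ‖q n‖) l (𝓝 0) := by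
    refine tz (√(4 * k / θ) + 1) (by positivity) (fun n => norm_nonneg _) fun ε hε => ?_
    have e1 : ∀ᶠ n in l, ∀ s : Fin k,
        ‖(adU (U n (ι (γ (FreeGroup.of s)))) : Es (d n) →L[ℂ] Es (d n)) (x n) - x n‖ ≤ ε :=
      eventually_all.2 fun s => zt (hxa _) hε
    have e2 : ∀ᶠ n in l, ∀ s : Fin k, ∀ v ∈ V n,
        ‖(adU (U n (ι (γ (FreeGroup.of s)))) : Es (d n) →L[ℂ] Es (d n)) v - v‖ ≤ ε * ‖v‖ :=
      eventually_all.2 fun s => p2 _ ε hε
    filter_upwards [e1, e2] with n h1 h2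
    have h3 := p1 n (q n) (hq n)
    have h4 : ∀ s : Fin k,
        ‖(adU (U n (ι (γ (FreeGroup.of s)))) : Es (d n) →L[ℂ] Es (d n)) (q n) - q n‖ ^ 2 ≤
          (2 * ε) ^ 2 := by
      intro s
      apply pow_le_pow_left₀ (norm_nonneg _)
      have h5 : q n = x n - p n := by
        rw [hpq n]
        abel
      have h6 := h1 s
      have h7 := (h2 s (p n) (hp n)).trans (mul_le_mul_of_nonneg_left (hp1 n) hε.le)
      rw [h5, map_sub]
      have h8 := norm_sub_le
        ((adU (U n (ι (γ (FreeGroup.of s)))) : Es (d n) →L[ℂ] Es (d n)) (x n) - x n)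
        ((adU (U n (ι (γ (FreeGroup.of s)))) : Es (d n) →L[ℂ] Es (d n)) (p n) - p n)
      rw [sub_sub_sub_comm] at h8
      linarith
    have h5 : ∑ s : Fin k,
        ‖(adU (U n (ι (γ (FreeGroup.of s)))) : Es (d n) →L[ℂ] Es (d n)) (q n) - q n‖ ^ 2 ≤
          k * (2 * ε) ^ 2 := by
      refine (Finset.sum_le_sum fun s _ => h4 s).trans (le_of_eq ?_)
      rw [Finset.sum_const, Finset.card_univ, Fintype.card_fin, nsmul_eq_mul]
    have h6 : ‖q n‖ ^ 2 ≤ ((√(4 * k / θ) + 1) * ε) ^ 2 := by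
      have h7 : θ * ‖q n‖ ^ 2 ≤ k * (2 * ε) ^ 2 := h3.trans h5
      have h8 : ‖q n‖ ^ 2 ≤ (4 * k / θ) * ε ^ 2 := by
        rw [div_mul_eq_mul_div, le_div_iff₀ hθ]
        linarith
      have h9 : 4 * k / θ = √(4 * k / θ) ^ 2 := (Real.sq_sqrt (by positivity)).symm
      have h10 : 0 ≤ √(4 * k / θ) := Real.sqrt_nonneg _
      rw [h9] at h8
      refine h8.trans ?_
      rw [mul_pow]
      apply mul_le_mul_of_nonneg_right _ (by positivity)
      nlinarith
    exact (pow_le_pow_iff_left₀ (norm_nonneg _) (by positivity) two_ne_zero).1 h6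
  -- the main estimate
  have hmain : Tendsto (fun n => ‖(adU (U n (ι a)) : Es (d n) →L[ℂ] Es (d n)) (z n) - z n‖) l
      (𝓝 0) := by
    refine tz 8 (by norm_num) (fun n => norm_nonneg _) fun ε₀ hε₀ => ?_
    obtain ⟨ε, hεd⟩ : ∃ ε, ε = min ε₀ 1 := ⟨_, rfl⟩
    have hε : 0 < ε := by rw [hεd]; exact lt_min hε₀ one_pos
    have hε1 : ε ≤ 1 := by rw [hεd]; exact min_le_right _ _
    have hεε : ε ≤ ε₀ := by rw [hεd]; exact min_le_left _ _
    filter_upwards [zt hzh hε, zt hq0 hε, p2 a ε hε, p3 ε hε] with n h1 h2 h3 h4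
    obtain ⟨w, hw, hw1⟩ := h4 (p n) (hp n)
    have hw2 : ‖(adU (U n h) : Es (d n) →L[ℂ] Es (d n)) w - p n‖ ≤ ε :=
      hw1.trans (by nlinarith [hp1 n])
    have hw3 : ‖w‖ ≤ 2 := by
      have h5 := norm_add_le ((adU (U n h) : Es (d n) →L[ℂ] Es (d n)) w - p n) (p n)
      rw [sub_add_cancel, adU_norm] at h5
      linarith [hp1 n]
    have hzw : ‖z n - w‖ ≤ 3 * ε := by
      rw [← adU_norm (U n h), map_sub]
      have e : (adU (U n h) : Es (d n) →L[ℂ] Es (d n)) (z n) -
          (adU (U n h) : Es (d n) →L[ℂ] Es (d n)) w =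
          ((adU (U n h) : Es (d n) →L[ℂ] Es (d n)) (z n) - x n) + q n -
            ((adU (U n h) : Es (d n) →L[ℂ] Es (d n)) w - p n) := by
        rw [hpq n]
        abel
      rw [e]
      have h5 := norm_sub_le (((adU (U n h) : Es (d n) →L[ℂ] Es (d n)) (z n) - x n) + q n)
        ((adU (U n h) : Es (d n) →L[ℂ] Es (d n)) w - p n)
      have h6 := norm_add_le ((adU (U n h) : Es (d n) →L[ℂ] Es (d n)) (z n) - x n) (q n)
      linarith
    have hwa : ‖(adU (U n (ι a)) : Es (d n) →L[ℂ] Es (d n)) w - w‖ ≤ 2 * ε := by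
      have h5 := h3 w hw
      nlinarith
    have e : (adU (U n (ι a)) : Es (d n) →L[ℂ] Es (d n)) (z n) - z n =
        (adU (U n (ι a)) : Es (d n) →L[ℂ] Es (d n)) (z n - w) - (z n - w) +
          ((adU (U n (ι a)) : Es (d n) →L[ℂ] Es (d n)) w - w) := by
      rw [map_sub]
      abel
    rw [e]
    have h5 := norm_add_le ((adU (U n (ι a)) : Es (d n) →L[ℂ] Es (d n)) (z n - w) - (z n - w))
      ((adU (U n (ι a)) : Es (d n) →L[ℂ] Es (d n)) w - w)
    have h6 := norm_sub_le ((adU (U n (ι a)) : Es (d n) →L[ℂ] Es (d n)) (z n - w)) (z n - w)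
    rw [adU_norm] at h6
    linarith
  have hfin := hmain.pow 2
  rw [zero_pow two_ne_zero] at hfin
  refine hfin.congr fun n => ?_
  rw [nv_hs2, hz]
  show ‖(adU (U n (ι a)) : Es (d n) →L[ℂ] Es (d n)) (nv (U n (ι c)).val) -
    nv (U n (ι c)).val‖ ^ 2 = _
  rw [ad_nv_sub, nv_sub, nv_sub, norm_sub_rev]

end

end Pool.Agent.N346.MX
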